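import Pool.Agent.Lib.MP_1a91b9_nuX.PH.Hv
import Pool.Agent.Lib.MP_1a91b9_nuX.PG.Fin

/-!
# The Hecke characters of the forms of the curve
-/

set_option autoImplicit false

namespace Pool.Agent.Lib.MP_1a91b9_nuX.PH

open NumberField IsDedekindDomain WeierstrassCurve Pool.Agent.Lib.MP_1a91b9_nuT
  Pool.Agent.Lib.MP_1a91b9_nt Pool.Agent.Lib.MP_1a91b9_nuG
open Pool.Agent.Lib.MP_1a91b9_nuX.DB Pool.Agent.Lib.MP_1a91b9_nuX.GL
  Pool.Agent.Lib.MP_1a91b9_nuX.PG

universe u

/-- two ideals which are not coprime are contained in a prime ideal -/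
theorem exists_not_coprime {F : Type*} [Field F] [NumberField F] {I m : Ideal (𝓞 F)} (hm : m ≠ ⊥)
    (h : ¬ IsCoprime I m) : ∃ w : HeightOneSpectrum (𝓞 F), I ≤ w.asIdeal ∧ m ≤ w.asIdeal := by
  rw [Ideal.isCoprime_iff_sup_eq] at h
  obtain ⟨M, hM, hle⟩ := Ideal.exists_le_maximal _ h
  refine ⟨⟨M, hM.isPrime, fun h0 => hm ?_⟩, le_sup_left.trans hle, le_sup_right.trans hle⟩
  rw [h0] at hle
  exact le_bot_iff.1 (le_sup_right.trans hle)

theorem coprime_not_le {F : Type*} [Field F] [NumberField F] {I m : Ideal (𝓞 F)}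
    (h : IsCoprime I m) {w : HeightOneSpectrum (𝓞 F)} (hI : I ≤ w.asIdeal) : ¬ m ≤ w.asIdeal := by
  intro hm
  rw [Ideal.isCoprime_iff_sup_eq] at h
  have h1 : I ⊔ m ≤ w.asIdeal := sup_le hI hm
  rw [h, top_le_iff] at h1
  exact w.isPrime.ne_top h1

variable [CD]

/-- two multiplicative functions with the same values at the prime ideals -/
theorem psI_ext {F : Type*} [Field F] [NumberField F] {g : HeightOneSpectrum (𝓞 F) → 𝓞 K}
    {p : Ideal (𝓞 F) → 𝓞 K} (h0 : p ⊥ = 0) (h1 : p 1 = 1) (hm : ∀ I J, p (I * J) = p I * p J)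
    (h : ∀ w : HeightOneSpectrum (𝓞 F), g w = p w.asIdeal) : psI g = p := by
  funext I
  rw [← psI_of h0 h1 hm I]
  exact psI_congr I fun w _ => h w

variable {F : Type u} [Field F] [NumberField F] [Algebra K F]

theorem fdat_bot {W : WeierstrassCurve F} {m : Ideal (𝓞 F)} {ps : Ideal (𝓞 F) → 𝓞 K}
    (h : FDat F W m ps) : ps ⊥ = 0 := by
  by_cases hc : IsCoprime (⊥ : Ideal (𝓞 F)) m
  · have h1 := h.span ⊥ hc
    rw [Ideal.relNorm_bot, Ideal.span_singleton_eq_bot] at h1
    exact h1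
  · exact h.zero ⊥ hc

variable [HC]

/-- the primitive character -/
theorem fdatP (hE : EllK) {W : WeierstrassCurve F} {g : 𝓞 K} (hg : g ≠ 0) (hW : AbW W g) :
    ∃ m : Ideal (𝓞 F), FDat F W m (psP W) := by
  classical
  obtain ⟨ι, D, hD, hA⟩ := hW
  let iA : Algebra F Kb := (ι : F →+* Kb).toAlgebra
  have iT : IsScalarTower K F Kb := IsScalarTower.of_algebraMap_eq fun x => (ι.commutes x).symm
  have hD' : D • EF Kb = W.map (algebraMap F Kb) := hD
  have hA' : AbD F D g := by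
    intro σ hσ
    exact hA (σ.restrictScalars K) (fun x => σ.commutes x) hσ
  obtain ⟨m, ps, h1, h2, h3⟩ := exists_fdatW hD' hE hg hA'
  have hF : Fm W := ⟨ι, D, hD⟩
  have h4 : psP W = ps := by
    show psI (Hv W) = ps
    refine psI_ext (fdat_bot h1) h1.one h1.mul fun w => ?_
    by_cases hw : Gd W w
    · exact hv_eq hE hF hw hD' (h2 w hw).2
    · rw [hv_bad hw, h3 w hw]
  rw [h4]
  exact ⟨m, h1⟩

omit [HC] in
private theorem main_ne {c : 𝓞 K} (hc : c ≠ 0) : up c F ≠ 0 := by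
  intro h
  exact hc ((FaithfulSMul.algebraMap_injective (𝓞 K) (𝓞 F)) (by rw [map_zero]; exact h))

omit [HC] in
private theorem main_mem {c : 𝓞 K} {w : HeightOneSpectrum (𝓞 F)} :
    Ideal.span {up c F} ≤ w.asIdeal ↔ c ∈ (w.under (𝓞 K)).asIdeal := by
  rw [Ideal.span_singleton_le_iff_mem]
  exact Iff.rfl

/-- the imprimitive character -/
theorem idatP (hE : EllK) {W : WeierstrassCurve F} {c g : 𝓞 K} (hc : c ≠ 0)
    (hf : (HC.f : 𝓞 K) ∣ c) (hg : g ∣ c) (hW : AbW W g)
    (hgd : ∀ w : HeightOneSpectrum (𝓞 F), c ∉ (w.under (𝓞 K)).asIdeal → Gd W w) :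
    IDat c F (psc c W) := by
  classical
  obtain ⟨ι, D, hD, hA⟩ := hW
  let iA : Algebra F Kb := (ι : F →+* Kb).toAlgebra
  have iT : IsScalarTower K F Kb := IsScalarTower.of_algebraMap_eq fun x => (ι.commutes x).symm
  have hD' : D • EF Kb = W.map (algebraMap F Kb) := hD
  have hA' : AbD F D g := by
    intro σ hσ
    exact hA (σ.restrictScalars K) (fun x => σ.commutes x) hσ
  have hF : Fm W := ⟨ι, D, hD⟩
  have hcF : up c F ≠ 0 := main_ne hc
  have hm0 : Ideal.span {up c F} ≠ ⊥ := by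
    rw [Ne, Ideal.span_singleton_eq_bot]
    exact hcF
  refine ⟨hc, hf, psI_one _, psI_mul _, fun I hI => ?_, fun I hI => ?_, fun a ha => ?_⟩
  · by_cases h0 : I = ⊥
    · rw [psc, h0, psI_bot, Ideal.relNorm_bot, Ideal.span_singleton_eq_bot]
    · refine psI_span I (fun w hw => ?_) h0
      have h1 : c ∉ (w.under (𝓞 K)).asIdeal := fun h => coprime_not_le hI hw (main_mem.2 h)
      rw [if_neg h1]
      exact hv_span hE hF (hgd w h1)
  · obtain ⟨w, h1, h2⟩ := exists_not_coprime hm0 hI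
    refine psI_zero h1 ?_
    rw [if_pos (main_mem.1 h2)]
  · refine ini_ray (W := W) hD' hf hg (fun w hw => ?_) hA' a ha
    rw [if_neg hw]
    exact hv_frv hE hF (hgd w hw) hD'

omit [HC] in
private theorem main_rel {F' : Type u} [Field F'] [NumberField F'] [Algebra F F']
    (w : HeightOneSpectrum (𝓞 F')) : Ideal.relNorm (𝓞 F) w.asIdeal =
      (w.under (𝓞 F)).asIdeal ^ w.asIdeal.inertiaDeg (𝓞 F) := by
  have h0 : (w.under (𝓞 F)).asIdeal.IsMaximal := (w.under (𝓞 F)).isMaximal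
  have h1 : w.asIdeal.LiesOver (w.under (𝓞 F)).asIdeal := ⟨rfl⟩
  have hm : w.asIdeal.IsMaximal := w.isMaximal
  exact Ideal.relNorm_eq_pow_of_isMaximal w.asIdeal (w.under (𝓞 F)).asIdeal

omit [HC] in
theorem pu_psc (hE : EllK) {F' : Type u} [Field F'] [NumberField F'] [Algebra K F']
    [Algebra F F'] [IsScalarTower K F F'] {W : WeierstrassCurve F} (hW : Fm W) {c : 𝓞 K}
    (hgd : ∀ w : HeightOneSpectrum (𝓞 F), c ∉ (w.under (𝓞 K)).asIdeal → Gd W w) :
    pu F F' (psc c W) = psc c (W.map (algebraMap F F')) := by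
  classical
  symm
  show psI _ = pu F F' (psc c W)
  refine psI_ext ?_ ?_ (fun I J => ?_) fun w => ?_
  · show psI _ (Ideal.relNorm (𝓞 F) ⊥) = 0
    rw [Ideal.relNorm_bot, psI_bot]
  · show psI _ (Ideal.relNorm (𝓞 F) 1) = 1
    rw [map_one, psI_one]
  · show psI _ (Ideal.relNorm (𝓞 F) (I * J)) = psI _ (Ideal.relNorm (𝓞 F) I) *
      psI _ (Ideal.relNorm (𝓞 F) J)
    rw [map_mul, psI_mul]
  · show _ = psI _ (Ideal.relNorm (𝓞 F) w.asIdeal)
    rw [main_rel, psI_pow, psI_prime]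
    have hu : (w.under (𝓞 F)).under (𝓞 K) = w.under (𝓞 K) := by
      refine HeightOneSpectrum.ext ?_
      show (w.asIdeal.under (𝓞 F)).under (𝓞 K) = w.asIdeal.under (𝓞 K)
      exact Ideal.under_under _
    have hp : w.asIdeal.IsPrime := w.isPrime
    by_cases h : c ∈ (w.under (𝓞 K)).asIdeal
    · rw [if_pos h, hu, if_pos h, zero_pow (Ideal.inertiaDeg_pos w.asIdeal (𝓞 F)).ne']
    · rw [if_neg h, hu, if_neg h]
      exact hv_up hE hW w (hgd _ (by rw [hu]; exact h))

omit [HC] in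
theorem psc_iso {W W' : WeierstrassCurve F} (C : VariableChange F) (hC : C • W = W') (c : 𝓞 K) :
    psc c W = psc c W' := by
  funext I
  refine psI_congr I fun w _ => ?_
  rw [hv_iso C hC w]

omit [HC] in
theorem psP_iso {W W' : WeierstrassCurve F} (C : VariableChange F) (hC : C • W = W') :
    psP W = psP W' := by
  funext I
  exact psI_congr I fun w _ => hv_iso C hC w

theorem psc_E (hE : EllK) : psc HC.f (E F) = psi F := by
  classical
  show psI _ = psi F
  refine psI_ext ?_ ?_ ?_ fun w => ?_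
  · exact psi_zero F
  · exact psi_one F
  · exact psi_mul F
  · by_cases h : HC.f ∈ (w.under (𝓞 K)).asIdeal
    · rw [if_pos h, psi_bad h]
    · rw [if_neg h, hv_E hE h]

omit [HC] in
theorem psc_at {W : WeierstrassCurve F} {c : 𝓞 K} {w : HeightOneSpectrum (𝓞 F)}
    (hc : c ∉ (w.under (𝓞 K)).asIdeal) : psc c W w.asIdeal = psP W w.asIdeal := by
  rw [psc, psP, psI_prime, psI_prime, if_neg hc]

omit [HC] in
/-- the curves over a field which does not contain `K` -/
theorem eulD_P (hE : EllK) {N : Type u} [Field N] [NumberField N] [Algebra N F]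
    (h2 : Module.finrank N F = 2) (hn : ∀ x : N, algebraMap N F x ≠ algebraMap K F (ta : K))
    {W : WeierstrassCurve N} (hW : Fm (W.map (algebraMap N F))) :
    EulD W (psP (W.map (algebraMap N F))) := by
  classical
  obtain ⟨ι, D, hD⟩ := id hW
  let iA : Algebra F Kb := (ι : F →+* Kb).toAlgebra
  have iT : IsScalarTower K F Kb := IsScalarTower.of_algebraMap_eq fun x => (ι.commutes x).symm
  let iN : Algebra N Kb := ((ι : F →+* Kb).comp (algebraMap N F)).toAlgebra
  have iT2 : IsScalarTower N F Kb := IsScalarTower.of_algebraMap_eq fun x => rfl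
  have hQ : Algebra.IsAlgebraic ℚ Kb := Algebra.IsAlgebraic.trans ℚ K Kb
  have hN : Algebra.IsAlgebraic N Kb := Algebra.IsAlgebraic.tower_top (K := ℚ) N
  have hD1 : D • EF Kb = (W.map (algebraMap N F)).map (algebraMap F Kb) := hD
  have hD2 : D • EF Kb = W.map (algebraMap N Kb) := by
    rw [hD1, WeierstrassCurve.map_map, ← IsScalarTower.algebraMap_eq]
  refine eulD_of hD2 h2 hn (fun w hw => ?_) fun w hw => ?_
  · rw [psP, psI_prime]
    exact ⟨hv_span hE hW hw, hv_frv hE hW hw hD1⟩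
  · rw [psP, psI_prime, hv_bad hw]

end Pool.Agent.Lib.MP_1a91b9_nuX.PH
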