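import Pool.Agent.Lib.MP_1a91b9_nuX.PH.FrI

/-!
# The Hecke character of a form of the curve
-/

set_option autoImplicit false

namespace Pool.Agent.Lib.MP_1a91b9_nuX.PH

open NumberField IsDedekindDomain WeierstrassCurve Pool.Agent.Lib.MP_1a91b9_nuT
open Pool.Agent.Lib.MP_1a91b9_nuX.DB Pool.Agent.Lib.MP_1a91b9_nuX.GL
  Pool.Agent.Lib.MP_1a91b9_nuX.PG

universe u

variable [CD] {F : Type u} [Field F] [NumberField F] [Algebra K F]

/-- `W` becomes isomorphic to the curve over an algebraic closure of `K` -/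
def Fm (W : WeierstrassCurve F) : Prop :=
  ∃ (ι : F →ₐ[K] Kb) (D : VariableChange Kb), D • EF Kb = W.map (ι : F →+* Kb)

open Classical in
/-- the value of the Hecke character of `W` at the place `w`, zero if `W` has bad reduction at `w` -/
noncomputable def Hv (W : WeierstrassCurve F) (w : HeightOneSpectrum (𝓞 F)) : 𝓞 K :=
  if h : Gd W w ∧ ∃ ψ : 𝓞 K, ∀ (ι : F →ₐ[K] Kb) (D : VariableChange Kb),
    D • EF Kb = W.map (ι : F →+* Kb) → FrI (ι : F →+* Kb) D w ψ then h.2.choose else 0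

/-- the Hecke character of `W` -/
noncomputable def psP (W : WeierstrassCurve F) (I : Ideal (𝓞 F)) : 𝓞 K := psI (Hv W) I

open Classical in
/-- the Hecke character of `W` made zero at the places above `c` -/
noncomputable def psc (c : 𝓞 K) (W : WeierstrassCurve F) (I : Ideal (𝓞 F)) : 𝓞 K :=
  psI (fun w => if c ∈ (w.under (𝓞 K)).asIdeal then 0 else Hv W w) I

open Classical in
/-- `W` becomes isomorphic to the curve over the field generated over `F` by the points of the curve killed by `g` -/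
def AbW (W : WeierstrassCurve F) (g : 𝓞 K) : Prop :=
  ∃ (ι : F →ₐ[K] Kb) (D : VariableChange Kb), D • EF Kb = W.map (ι : F →+* Kb) ∧
    ∀ σ : Kb ≃ₐ[K] Kb, (∀ x : F, σ (ι x) = ι x) → (∀ T : Pt Kb, sm Kb g T = 0 → ga σ T = T) →
      Trp D σ (ga σ)

/-- there is an embedding -/
theorem exists_emb (F : Type u) [Field F] [NumberField F] [Algebra K F] :
    Nonempty (F →ₐ[K] Kb) := by
  have hfin : FiniteDimensional K F := Module.Finite.of_restrictScalars_finite ℚ K F
  have halg : Algebra.IsAlgebraic K F := Algebra.IsAlgebraic.of_finite K F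
  exact ⟨IsAlgClosed.lift⟩

/-- a form of the curve for any embedding -/
theorem fm_all {W : WeierstrassCurve F} (hW : Fm W) (ι : F →ₐ[K] Kb) :
    ∃ D : VariableChange Kb, D • EF Kb = W.map (ι : F →+* Kb) := by
  obtain ⟨ι₀, D₀, hD₀⟩ := hW
  obtain ⟨β, hβ⟩ := exists_emb_aut ι₀ ι
  refine ⟨D₀.map ((β : Kb ≃+* Kb) : Kb →+* Kb), ?_⟩
  have h1 : D₀.map ((β : Kb ≃+* Kb) : Kb →+* Kb) • EF Kb =
      (D₀ • EF Kb).map ((β : Kb ≃+* Kb) : Kb →+* Kb) := by
    conv_lhs => rw [← EF_map ((β : Kb ≃+* Kb) : Kb →+* Kb)]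
    exact WeierstrassCurve.map_variableChange _ _ _
  rw [h1, hD₀, WeierstrassCurve.map_map]
  congr 1
  exact RingHom.ext fun x => hβ x

omit [CD] [Algebra K F] in
/-- good reduction does not depend on the model -/
theorem gd_chg {W W' : WeierstrassCurve F} (C : VariableChange F) (hC : C • W = W')
    (w : HeightOneSpectrum (𝓞 F)) : Gd W w ↔ Gd W' w := by
  constructor
  · rintro ⟨C', h⟩
    refine ⟨C' * C⁻¹, ?_⟩
    rw [mul_smul, ← hC, inv_smul_smul]
    exact h
  · rintro ⟨C', h⟩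
    refine ⟨C' * C, ?_⟩
    rw [mul_smul, hC]
    exact h

theorem fri_chg [DecidableEq Kb] {ι : F →ₐ[K] Kb} {D : VariableChange Kb}
    {w : HeightOneSpectrum (𝓞 F)} {ψ : 𝓞 K} (C : VariableChange F)
    (h : FrI (ι : F →+* Kb) D w ψ) :
    FrI (ι : F →+* Kb) (C.map (ι : F →+* Kb) * D) w ψ := by
  let iA : Algebra F Kb := (ι : F →+* Kb).toAlgebra
  have iT : IsScalarTower K F Kb := IsScalarTower.of_algebraMap_eq fun x => (ι.commutes x).symm
  have e : algebraMap F Kb = (ι : F →+* Kb) := rfl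
  rw [← e] at h ⊢
  rw [fri_iff] at h ⊢
  intro V hV σ hσ φ hφ T hT
  exact h V hV σ hσ φ ((trp_chg C σ).2 hφ) T hT

section aux

open Classical in
/-- the property of the value -/
private def hvP (W : WeierstrassCurve F) (w : HeightOneSpectrum (𝓞 F)) (ψ : 𝓞 K) : Prop :=
  ∀ (ι : F →ₐ[K] Kb) (D : VariableChange Kb), D • EF Kb = W.map (ι : F →+* Kb) →
    FrI (ι : F →+* Kb) D w ψ

open Classical in
private noncomputable def hvPick (p : Prop) (q : 𝓞 K → Prop) : 𝓞 K :=
  if h : p ∧ ∃ ψ, q ψ then h.2.choose else 0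

private theorem hv_pick (W : WeierstrassCurve F) (w : HeightOneSpectrum (𝓞 F)) :
    Hv W w = hvPick (Gd W w) (hvP W w) := rfl

private theorem hvP_iso {W W' : WeierstrassCurve F} {w : HeightOneSpectrum (𝓞 F)} {ψ : 𝓞 K}
    (C : VariableChange F) (hC : C • W = W') (h : hvP W w ψ) : hvP W' w ψ := by
  classical
  intro ι D hD
  have h1 : (C.map (ι : F →+* Kb)) • W.map (ι : F →+* Kb) = W'.map (ι : F →+* Kb) := by
    rw [← hC]
    exact WeierstrassCurve.map_variableChange _ _ _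
  have h2 := fri_chg C (h ι ((C.map (ι : F →+* Kb))⁻¹ * D) (by
    rw [mul_smul, hD, ← h1, inv_smul_smul]))
  rw [mul_inv_cancel_left] at h2
  exact h2

private theorem hv_exists (hE : EllK) {W : WeierstrassCurve F} (hW : Fm W)
    {w : HeightOneSpectrum (𝓞 F)} (hg : Gd W w) :
    ∃ ψ : 𝓞 K, Ideal.span {ψ} = Ideal.relNorm (𝓞 K) w.asIdeal ∧ hvP W w ψ := by
  classical
  obtain ⟨ι₀, D₀, hD₀⟩ := hW
  let iA : Algebra F Kb := (ι₀ : F →+* Kb).toAlgebra
  have iT : IsScalarTower K F Kb := IsScalarTower.of_algebraMap_eq fun x => (ι₀.commutes x).symm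
  obtain ⟨ψ, h1, h2⟩ := exists_frv (F := F) (D := D₀) (W := W) hD₀ hE hg
  refine ⟨ψ, h1, fun ι D hD => fri_change hD₀ hD ?_⟩
  have h3 := (fri_iff (F := F) (D := D₀) (w := w) (ψ := ψ)).2 h2
  exact h3

private theorem hv_spec (hE : EllK) {W : WeierstrassCurve F} (hW : Fm W)
    {w : HeightOneSpectrum (𝓞 F)} (hg : Gd W w) : hvP W w (Hv W w) := by
  obtain ⟨ψ, -, h1⟩ := hv_exists hE hW hg
  have h : Gd W w ∧ ∃ ψ, hvP W w ψ := ⟨hg, ψ, h1⟩
  have h2 : Hv W w = h.2.choose := by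
    rw [hv_pick, hvPick, dif_pos h]
  rw [h2]
  exact h.2.choose_spec

end aux

theorem hv_bad {W : WeierstrassCurve F} {w : HeightOneSpectrum (𝓞 F)} (h : ¬ Gd W w) :
    Hv W w = 0 := by
  rw [hv_pick, hvPick, dif_neg fun h' => h h'.1]

theorem hv_iso {W W' : WeierstrassCurve F} (C : VariableChange F) (hC : C • W = W')
    (w : HeightOneSpectrum (𝓞 F)) : Hv W w = Hv W' w := by
  have e1 : Gd W w = Gd W' w := propext (gd_chg C hC w)
  have e2 : hvP W w = hvP W' w := funext fun ψ => propext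
    ⟨fun h => hvP_iso C hC h, fun h => hvP_iso C⁻¹ (by rw [← hC, inv_smul_smul]) h⟩
  rw [hv_pick, hv_pick, e1, e2]

section
variable (hE : EllK) {W : WeierstrassCurve F} (hW : Fm W) {w : HeightOneSpectrum (𝓞 F)}
  (hg : Gd W w)
include hE hW hg

theorem hv_fri [DecidableEq Kb] (ι : F →ₐ[K] Kb) (D : VariableChange Kb)
    (hD : D • EF Kb = W.map (ι : F →+* Kb)) : FrI (ι : F →+* Kb) D w (Hv W w) := by
  have h := hv_spec hE hW hg ι D hD
  have e : (inferInstance : DecidableEq Kb) = fun a b => Classical.propDecidable (a = b) :=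
    Subsingleton.elim _ _
  rw [← e] at h
  exact h

/-- the value in terms of the algebra structure -/
theorem hv_frv [DecidableEq Kb] [Algebra F Kb] [IsScalarTower K F Kb] {D : VariableChange Kb}
    (hD : D • EF Kb = W.map (algebraMap F Kb)) : FrV D w (Hv W w) := by
  have h := hv_fri hE hW hg (IsScalarTower.toAlgHom K F Kb) D hD
  exact fri_iff.1 h

/-- uniqueness of the value -/
theorem hv_eq [DecidableEq Kb] [Algebra F Kb] [IsScalarTower K F Kb] {D : VariableChange Kb}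
    (hD : D • EF Kb = W.map (algebraMap F Kb)) {ψ : 𝓞 K} (h : FrV D w ψ) : Hv W w = ψ :=
  frv_unique hD (hv_frv hE hW hg hD) h

theorem hv_span : Ideal.span {Hv W w} = Ideal.relNorm (𝓞 K) w.asIdeal := by
  classical
  obtain ⟨ψ, h1, h2⟩ := hv_exists hE hW hg
  obtain ⟨ι, D, hD⟩ := id hW
  let iA : Algebra F Kb := (ι : F →+* Kb).toAlgebra
  have iT : IsScalarTower K F Kb := IsScalarTower.of_algebraMap_eq fun x => (ι.commutes x).symm
  have h3 : FrV D w ψ := fri_iff.1 (h2 ι D hD)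
  rw [hv_eq hE hW hg hD h3, h1]

end

/-- the curve itself is a form of the curve -/
theorem fm_E : Fm (E F) := by
  obtain ⟨ι⟩ := exists_emb F
  refine ⟨ι, 1, ?_⟩
  rw [one_smul, EF_eq]
  refine WeierstrassCurve.ext ?_ ?_ ?_ ?_ ?_
  · exact (map_zero (ι : F →+* Kb)).symm
  · exact (map_zero (ι : F →+* Kb)).symm
  · exact (map_zero (ι : F →+* Kb)).symm
  · exact (map_intCast (ι : F →+* Kb) _).symm
  · exact (map_intCast (ι : F →+* Kb) _).symm

/-- good reduction over a larger field -/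
theorem gd_up {F' : Type u} [Field F'] [NumberField F'] [Algebra F F'] {W : WeierstrassCurve F}
    {w : HeightOneSpectrum (𝓞 F')} (hg : Gd W (w.under (𝓞 F))) :
    Gd (W.map (algebraMap F F')) w := by
  classical
  obtain ⟨C, hC⟩ := hg
  refine ⟨C.map (algebraMap F F'), ?_⟩
  have h1 := GM.good_map (F' := F') (v' := w.valuation F') (GM.val_under w) hC
  have h2 : (C • W).map (algebraMap F F') = C.map (algebraMap F F') • W.map (algebraMap F F') :=
    (WeierstrassCurve.map_variableChange _ _ _).symm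
  rw [← h2]
  exact h1

theorem E_map_up (F' : Type*) [Field F'] [Algebra F F'] : (E F).map (algebraMap F F') = E F' := by
  refine WeierstrassCurve.ext ?_ ?_ ?_ ?_ ?_
  · exact map_zero _
  · exact map_zero _
  · exact map_zero _
  · exact map_intCast _ _
  · exact map_intCast _ _

theorem gd_E [HC] {w : HeightOneSpectrum (𝓞 F)} (hf : HC.f ∉ (w.under (𝓞 K)).asIdeal) :
    Gd (E F) w := by
  classical
  obtain ⟨C, hC⟩ := good_of_f' hf
  refine ⟨C.map (algebraMap K F), ?_⟩
  have h1 := GM.good_map (F' := F) (v' := w.valuation F) (GM.val_under w) hC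
  have h2 : (C • E K).map (algebraMap K F) = C.map (algebraMap K F) • E F := by
    have h3 : (E K).map (algebraMap K F) = E F := EF_eq F
    rw [← h3]
    exact (WeierstrassCurve.map_variableChange _ _ _).symm
  rw [← h2]
  exact h1

theorem hv_E [HC] (hE : EllK) {w : HeightOneSpectrum (𝓞 F)}
    (hf : HC.f ∉ (w.under (𝓞 K)).asIdeal) : Hv (E F) w = psi F w.asIdeal := by
  classical
  obtain ⟨ι⟩ := exists_emb F
  let iA : Algebra F Kb := (ι : F →+* Kb).toAlgebra
  have iT : IsScalarTower K F Kb := IsScalarTower.of_algebraMap_eq fun x => (ι.commutes x).symm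
  refine hv_eq hE fm_E (gd_E hf) (D := 1) ?_ (frv_psi hf)
  rw [one_smul, EF_eq, E_map_up]

/-- a form of the curve over a larger field -/
theorem fm_up {F' : Type u} [Field F'] [NumberField F'] [Algebra K F'] [Algebra F F']
    [IsScalarTower K F F'] {W : WeierstrassCurve F} (hW : Fm W) :
    Fm (W.map (algebraMap F F')) := by
  obtain ⟨ι'⟩ := exists_emb F'
  obtain ⟨D, hD⟩ := fm_all hW (ι'.comp (IsScalarTower.toAlgHom K F F'))
  refine ⟨ι', D, ?_⟩
  rw [hD, WeierstrassCurve.map_map]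
  rfl

private theorem hv_pow {F' : Type u} [Field F'] [NumberField F'] [Algebra F F']
    (w : HeightOneSpectrum (𝓞 F')) : Ideal.absNorm w.asIdeal =
      Ideal.absNorm (w.under (𝓞 F)).asIdeal ^ w.asIdeal.inertiaDeg (𝓞 F) := by
  have h0 : (w.under (𝓞 F)).asIdeal.IsMaximal := (w.under (𝓞 F)).isMaximal
  have h1 : w.asIdeal.LiesOver (w.under (𝓞 F)).asIdeal := ⟨rfl⟩
  have hm : w.asIdeal.IsMaximal := w.isMaximal
  have hrel : Ideal.relNorm (𝓞 F) w.asIdeal =
      (w.under (𝓞 F)).asIdeal ^ w.asIdeal.inertiaDeg (𝓞 F) :=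
    Ideal.relNorm_eq_pow_of_isMaximal w.asIdeal (w.under (𝓞 F)).asIdeal
  rw [← Ideal.absNorm_relNorm (𝓞 F), hrel, map_pow]

private theorem hv_powsub {Ω : Type*} [Field Ω] {V : ValuationSubring Ω} {a b : Ω}
    (ha : V.valuation a ≤ 1) (hb : V.valuation b ≤ 1) (h : V.valuation (a - b) < 1) (m : ℕ) :
    V.valuation (a ^ m - b ^ m) < 1 := by
  induction m with
  | zero =>
    rw [pow_zero, pow_zero, sub_self, map_zero]
    exact zero_lt_one
  | succ m ih =>
    have e : a ^ (m + 1) - b ^ (m + 1) = (a ^ m - b ^ m) * a + (a - b) * b ^ m := by ring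
    rw [e]
    refine Valuation.map_add_lt _ ?_ ?_
    · rw [map_mul]
      exact mul_lt_one_of_lt_of_le ih ha
    · rw [map_mul, map_pow]
      exact mul_lt_one_of_lt_of_le h (pow_le_one' hb m)

/-- powers of an automorphism which is a Frobenius automorphism -/
private theorem hv_frpow {k Ω : Type*} [Field k] [NumberField k] [Field Ω] [Algebra k Ω]
    {V : ValuationSubring Ω} {q : ℕ} {σ : Ω ≃ₐ[k] Ω} (h : IsFr V q σ) (n : ℕ) :
    IsFr V (q ^ n) (σ ^ n) := by
  induction n with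
  | zero =>
    intro x _
    have e : (σ ^ 0) x - x ^ q ^ 0 = 0 := by
      rw [pow_zero, pow_zero, pow_one]
      exact sub_self x
    rw [e, map_zero]
    exact zero_lt_one
  | succ n ih =>
    intro x hx
    have hx1 : V.valuation (σ x) ≤ 1 := fr_le h hx
    have hx2 : V.valuation (x ^ q) ≤ 1 := by
      rw [map_pow]
      exact pow_le_one' hx q
    have e : (σ ^ (n + 1)) x - x ^ q ^ (n + 1) =
        ((σ ^ n) (σ x) - (σ x) ^ q ^ n) + ((σ x) ^ q ^ n - (x ^ q) ^ q ^ n) := by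
      have e1 : (σ ^ (n + 1)) x = (σ ^ n) (σ x) := by
        rw [pow_succ]
        rfl
      rw [e1, ← pow_mul, ← pow_succ']
      ring
    rw [e]
    exact Valuation.map_add_lt _ (ih _ hx1) (hv_powsub hx1 hx2 (h x hx) _)

/-- the values over a larger field -/
theorem hv_up (hE : EllK) {F' : Type u} [Field F'] [NumberField F'] [Algebra K F'] [Algebra F F']
    [IsScalarTower K F F'] {W : WeierstrassCurve F} (hW : Fm W) (w : HeightOneSpectrum (𝓞 F'))
    (hg : Gd W (w.under (𝓞 F))) : Hv (W.map (algebraMap F F')) w =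
      Hv W (w.under (𝓞 F)) ^ w.asIdeal.inertiaDeg (𝓞 F) := by
  classical
  obtain ⟨ι'⟩ := exists_emb F'
  obtain ⟨D, hD⟩ := fm_all hW (ι'.comp (IsScalarTower.toAlgHom K F F'))
  let iA' : Algebra F' Kb := (ι' : F' →+* Kb).toAlgebra
  have iT' : IsScalarTower K F' Kb := IsScalarTower.of_algebraMap_eq fun x => (ι'.commutes x).symm
  let iA : Algebra F Kb := ((ι'.comp (IsScalarTower.toAlgHom K F F')) : F →+* Kb).toAlgebra
  have iT2 : IsScalarTower F F' Kb := IsScalarTower.of_algebraMap_eq fun x => rfl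
  have iT : IsScalarTower K F Kb := IsScalarTower.of_algebraMap_eq fun x =>
    ((ι'.comp (IsScalarTower.toAlgHom K F F')).commutes x).symm
  have hD1 : D • EF Kb = W.map (algebraMap F Kb) := hD
  have hD2 : D • EF Kb = (W.map (algebraMap F F')).map (algebraMap F' Kb) := md_up hD1
  refine hv_eq hE (fm_up hW) (gd_up hg) hD2 ?_
  intro V hV σ hσ φ hφ T hT
  have hV' : Abv (w.under (𝓞 F)) V := abv_res hV
  have hF : Algebra.IsAlgebraic F Kb := Algebra.IsAlgebraic.tower_top (K := K) F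
  obtain ⟨σ₁, hσ₁⟩ := exists_fr hV'
  obtain ⟨φ₁, hφ₁⟩ := trp_exists hD1 σ₁
  have hfr := hv_frv hE hW hg hD1
  have hpow : ∀ n : ℕ, ∃ φn : Pt Kb →+ Pt Kb, Trp D (σ₁ ^ n : Kb ≃ₐ[F] Kb) φn ∧
      ∀ T : Pt Kb, Ta V.valuation T → φn T = sm Kb (Hv W (w.under (𝓞 F)) ^ n) T := by
    intro n
    induction n with
    | zero =>
      refine ⟨AddMonoidHom.id _, ?_, fun T _ => ?_⟩
      · rw [pow_zero]
        exact trp_id
      · rw [pow_zero, sm_one]
        rfl
    | succ n ih =>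
      obtain ⟨φn, h1, h2⟩ := ih
      refine ⟨φn.comp φ₁, ?_, fun T hT => ?_⟩
      · rw [pow_succ]
        have h3 := trp_comp (σ := (σ₁ ^ n : Kb ≃ₐ[F] Kb)) (τ := σ₁) h1 hφ₁
        exact h3
      · show φn (φ₁ T) = _
        rw [hfr V hV' σ₁ hσ₁ φ₁ hφ₁ T hT, h2 _ (ta_sm hT _), ← sm_mul, pow_succ]
  obtain ⟨φn, h1, h2⟩ := hpow (w.asIdeal.inertiaDeg (𝓞 F))
  rw [← h2 T hT]
  obtain ⟨C, hC⟩ := hg
  have hG : GoodC V.valuation (C.map (algebraMap F Kb) * D) := goodC_of (md_chg hD1 C) hV' hC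
  have h3 : IsFr V (Ideal.absNorm (w.under (𝓞 F)).asIdeal ^ w.asIdeal.inertiaDeg (𝓞 F))
      (σ.restrictScalars F) := by
    rw [← hv_pow]
    exact hσ
  have h4 : Trp D (σ.restrictScalars F) φ := hφ
  exact trp_agree (md_chg hD1 C) hV' hG h3 (hv_frpow hσ₁ _) ((trp_chg C _).1 h4)
    ((trp_chg C _).1 h1) hT

end Pool.Agent.Lib.MP_1a91b9_nuX.PH
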