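import Pool.Agent.Lib.MP_1a91b9_nuX.PG.Ini
import Pool.Agent.Lib.MP_1a91b9_nuX.PG.Idat

/-!
# The value of the Hecke character does not depend on the embedding and the isomorphism
-/

set_option autoImplicit false

namespace Pool.Agent.Lib.MP_1a91b9_nuX.PH

open NumberField IsDedekindDomain WeierstrassCurve Pool.Agent.Lib.MP_1a91b9_nuT
open Pool.Agent.Lib.MP_1a91b9_nuX.DB Pool.Agent.Lib.MP_1a91b9_nuX.GL
  Pool.Agent.Lib.MP_1a91b9_nuX.PG

universe u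

section transport

variable [CD]

theorem EF_map (f : Kb →+* Kb) : (EF Kb).map f = EF Kb := by
  rw [EF_eq]
  refine WeierstrassCurve.ext ?_ ?_ ?_ ?_ ?_
  · exact map_zero f
  · exact map_zero f
  · exact map_zero f
  · exact map_intCast f _
  · exact map_intCast f _

private theorem fri_px (P : (EF Kb).toAffine.Point) : GM.px P = xc (F := Kb) P := by
  rcases P with _ | ⟨x, y, h⟩
  · rfl
  · rfl

private theorem fri_py (P : (EF Kb).toAffine.Point) : GM.py P = yc (F := Kb) P := by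
  rcases P with _ | ⟨x, y, h⟩
  · rfl
  · rfl

omit [CD] in
private theorem fri_alg {F : Type*} [Field F] {u r s t x y X Y : F} (hu : u ≠ 0)
    (h1 : x = u ^ 2 * X + r) (h2 : y = u ^ 3 * Y + u ^ 2 * s * X + t) :
    X = (x - r) / u ^ 2 ∧ Y = (y - s * (x - r) - t) / u ^ 3 := by
  rw [eq_div_iff (pow_ne_zero 2 hu), eq_div_iff (pow_ne_zero 3 hu), h1, h2]
  constructor <;> ring

variable [DecidableEq Kb]

private theorem fri_e (D : VariableChange Kb) : ∃ e : Pt Kb ≃+ (D • EF Kb).toAffine.Point,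
    ∀ P : Pt Kb, P ≠ 0 → GM.px (e P) = cx D P ∧ GM.py (e P) = cy D P := by
  obtain ⟨e, he⟩ := GM.exists_chg (EF Kb) D
  refine ⟨e, fun P hP => ?_⟩
  obtain ⟨h1, h2⟩ := he P hP
  rw [fri_px P] at h1
  rw [fri_py P] at h2
  exact fri_alg D.u.ne_zero h1 h2

/-- `R` is the transport of the automorphism `β` from the coordinates `cx D`, `cy D` to the coordinates `cx D'`, `cy D'` -/
def Trq (D D' : VariableChange Kb) (β : Kb → Kb) (R : Pt Kb →+ Pt Kb) : Prop :=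
  ∀ T : Pt Kb, T ≠ 0 → R T ≠ 0 ∧ cx D' (R T) = β (cx D T) ∧ cy D' (R T) = β (cy D T)

theorem trq_exists {D D' : VariableChange Kb} (β : Kb ≃ₐ[K] Kb)
    (h : D' • EF Kb = (D • EF Kb).map ((β : Kb ≃+* Kb) : Kb →+* Kb)) :
    ∃ R : Pt Kb →+ Pt Kb, Trq D D' β R ∧
      ∀ (a : 𝓞 K) (T : Pt Kb), R (sm Kb a T) = sm Kb a (R T) := by
  obtain ⟨D₁, hD₁⟩ : ∃ D₁ : VariableChange Kb, D₁ = D.map ((β : Kb ≃+* Kb) : Kb →+* Kb) := ⟨_, rfl⟩
  have h1 : D₁ • EF Kb = D' • EF Kb := by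
    rw [h, hD₁]
    conv_lhs => rw [← EF_map ((β : Kb ≃+* Kb) : Kb →+* Kb)]
    exact WeierstrassCurve.map_variableChange _ _ _
  have hu : (D₁.u : Kb) = β (D.u : Kb) := by
    rw [hD₁]
    rfl
  have hr : D₁.r = β D.r := by
    rw [hD₁]
    rfl
  have hs : D₁.s = β D.s := by
    rw [hD₁]
    rfl
  have ht : D₁.t = β D.t := by
    rw [hD₁]
    rfl
  obtain ⟨e₁, he₁⟩ := fri_e D₁
  obtain ⟨e', he'⟩ := fri_e D'
  obtain ⟨e, he⟩ := point_transfer h1
  obtain ⟨R₀, hR₀⟩ : ∃ R₀ : Pt Kb →+ Pt Kb, ∀ S, R₀ S = e'.symm (e (e₁ S)) :=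
    ⟨((e'.symm.toAddMonoidHom).comp e.toAddMonoidHom).comp e₁.toAddMonoidHom, fun _ => rfl⟩
  have hR : ∀ S, S ≠ 0 → R₀ S ≠ 0 ∧ cx D' (R₀ S) = cx D₁ S ∧ cy D' (R₀ S) = cy D₁ S := by
    intro S hS
    have h2 : e' (R₀ S) = e (e₁ S) := by
      rw [hR₀]
      exact e'.apply_symm_apply _
    have h3 : e (e₁ S) ≠ 0 := fun h4 =>
      hS ((map_eq_zero_iff e₁ e₁.injective).1 ((map_eq_zero_iff e e.injective).1 h4))
    have h4 : R₀ S ≠ 0 := by
      intro h5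
      rw [h5, map_zero] at h2
      exact h3 h2.symm
    refine ⟨h4, ?_, ?_⟩
    · rw [← (he' _ h4).1, h2, (he _).1, (he₁ S hS).1]
    · rw [← (he' _ h4).2, h2, (he _).2, (he₁ S hS).2]
  obtain ⟨ρ, hρ, hA, hB, hρ2⟩ := aut_short h1.symm
  have hlin : ∀ (a : 𝓞 K) (S : Pt Kb), R₀ (sm Kb a S) = sm Kb a (R₀ S) :=
    fun a S => aut_sm hρ hA hB (fun S hS => by
      obtain ⟨k1, k2, k3⟩ := hR S hS
      exact ⟨k1, hρ2 S (R₀ S) k2 k3⟩) a S
  refine ⟨R₀.comp (ga β), fun T hT => ?_, fun a T => ?_⟩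
  · have h2 : ga β T ≠ 0 := fun h3 => hT ((gk_ne β).1 h3)
    obtain ⟨k1, k2, k3⟩ := hR _ h2
    refine ⟨k1, k2.trans ?_, k3.trans ?_⟩
    · rw [cx, cx, xc_gk, hu, hr, map_div₀, map_sub, map_pow]
    · rw [cy, cy, xc_gk, yc_gk, hu, hr, hs, ht, map_div₀, map_sub, map_sub, map_mul, map_sub,
        map_pow]
  · show R₀ (ga β (sm Kb a T)) = sm Kb a (R₀ (ga β T))
    rw [gk_sm, hlin]

theorem trq_inv {D D' : VariableChange Kb} {β γ : Kb → Kb} {R S : Pt Kb →+ Pt Kb}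
    (h : Trq D D' β R) (h' : Trq D' D γ S) (hβ : ∀ x, β (γ x) = x) (T : Pt Kb) :
    R (S T) = T := by
  by_cases hT : T = 0
  · rw [hT, map_zero, map_zero]
  · obtain ⟨b1, b2, b3⟩ := h' T hT
    obtain ⟨a1, a2, a3⟩ := h (S T) b1
    refine cxy_ext (D := D') a1 hT ?_ ?_
    · rw [a2, b2, hβ]
    · rw [a3, b3, hβ]

/-- the conjugate of a transport -/
theorem trq_conj {D D' : VariableChange Kb} {β γ σ : Kb → Kb} {R S φ : Pt Kb →+ Pt Kb}
    (h : Trq D D' β R) (h' : Trq D' D γ S) (hφ : Trp D' σ φ) :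
    Trp D (fun x => γ (σ (β x))) ((S.comp φ).comp R) := by
  intro T hT
  obtain ⟨a1, a2, a3⟩ := h T hT
  obtain ⟨b1, b2, b3⟩ := hφ _ a1
  obtain ⟨c1, c2, c3⟩ := h' _ b1
  refine ⟨c1, ?_, ?_⟩
  · show cx D (S (φ (R T))) = _
    rw [c2, b2, a2]
  · show cy D (S (φ (R T))) = _
    rw [c3, b3, a3]

end transport

variable [CD]

/-- an automorphism which maps an embedding to another one -/
theorem exists_emb_aut {F : Type u} [Field F] [Algebra K F] (ι ι' : F →ₐ[K] Kb) :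
    ∃ β : Kb ≃ₐ[K] Kb, ∀ x, β (ι x) = ι' x := by
  have hN : Normal K Kb := IsAlgClosure.normal K Kb
  obtain ⟨e, he⟩ : ∃ e : F ≃ₐ[K] ι.fieldRange, ∀ x, algebraMap ι.fieldRange Kb (e x) = ι x :=
    ⟨AlgEquiv.ofInjectiveField ι, fun _ => rfl⟩
  obtain ⟨e', he'⟩ : ∃ e : F ≃ₐ[K] ι'.fieldRange, ∀ x, algebraMap ι'.fieldRange Kb (e x) = ι' x :=
    ⟨AlgEquiv.ofInjectiveField ι', fun _ => rfl⟩
  refine ⟨(e.symm.trans e').liftNormal Kb, fun x => ?_⟩
  have h1 := (e.symm.trans e').liftNormal_commutes Kb (e x)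
  rw [AlgEquiv.trans_apply, AlgEquiv.symm_apply_apply, he, he'] at h1
  exact h1

variable [DecidableEq Kb] {F : Type u} [Field F] [NumberField F] [Algebra K F]

/-- the Frobenius automorphisms at `w` act as `ψ`; `F` is embedded in `Kb` by `ι` -/
def FrI (ι : F →+* Kb) (D : VariableChange Kb) (w : HeightOneSpectrum (𝓞 F)) (ψ : 𝓞 K) : Prop :=
  ∀ V : ValuationSubring Kb, (∀ x : F, V.valuation (ι x) ≤ 1 ↔ w.valuation F x ≤ 1) →
    ∀ σ : Kb ≃+* Kb, (∀ x : F, σ (ι x) = ι x) →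
    (∀ x : Kb, V.valuation x ≤ 1 →
      V.valuation (σ x - x ^ Ideal.absNorm w.asIdeal) < 1) →
    ∀ φ : Pt Kb →+ Pt Kb, Trp D σ φ → ∀ T : Pt Kb, Ta V.valuation T → φ T = sm Kb ψ T

theorem fri_iff [Algebra F Kb] [IsScalarTower K F Kb] {D : VariableChange Kb}
    {w : HeightOneSpectrum (𝓞 F)} {ψ : 𝓞 K} : FrI (algebraMap F Kb) D w ψ ↔ FrV D w ψ := by
  constructor
  · intro h V hV σ hσ φ hφ T hT
    exact h V hV (σ : Kb ≃+* Kb) (fun x => σ.commutes x) hσ φ hφ T hT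
  · intro h V hV σ hσ hF φ hφ T hT
    exact h V hV (AlgEquiv.ofRingEquiv (f := σ) hσ) hF φ hφ T hT

/-- independence of the embedding and of the isomorphism -/
theorem fri_change {ι ι' : F →ₐ[K] Kb} {D D' : VariableChange Kb} {W : WeierstrassCurve F}
    (hD : D • EF Kb = W.map (ι : F →+* Kb)) (hD' : D' • EF Kb = W.map (ι' : F →+* Kb))
    {w : HeightOneSpectrum (𝓞 F)} {ψ : 𝓞 K} (h : FrI (ι : F →+* Kb) D w ψ) :
    FrI (ι' : F →+* Kb) D' w ψ := by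
  intro V hV σ hσ hF φ hφ T hT
  obtain ⟨β, hβ⟩ := exists_emb_aut ι ι'
  have hβ' : ∀ x, β.symm (ι' x) = ι x := fun x => by rw [← hβ, AlgEquiv.symm_apply_apply]
  -- the transports of `β` and its inverse
  obtain ⟨R, hR, hRl⟩ := trq_exists (D := D) (D' := D') β (by
    rw [hD, hD', WeierstrassCurve.map_map]
    congr 1
    exact RingHom.ext fun x => (hβ x).symm)
  obtain ⟨S, hS, hSl⟩ := trq_exists (D := D') (D' := D) β.symm (by
    rw [hD, hD', WeierstrassCurve.map_map]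
    congr 1
    exact RingHom.ext fun x => (hβ' x).symm)
  have hRS : ∀ X, R (S X) = X := trq_inv hR hS β.apply_symm_apply
  obtain ⟨V₀, hV₀⟩ : ∃ V₀ : ValuationSubring Kb, V₀ = Vt (β.symm : Kb ≃+* Kb) V := ⟨_, rfl⟩
  have hle : ∀ x, V₀.valuation x ≤ 1 ↔ V.valuation (β x) ≤ 1 := fun x => by
    have h1 := vt_le (β.symm : Kb ≃+* Kb) V (β x)
    have h2 : (β.symm : Kb ≃+* Kb) (β x) = x := β.symm_apply_apply x
    rw [h2] at h1
    rw [hV₀]
    exact h1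
  have hlt : ∀ x, V₀.valuation x < 1 ↔ V.valuation (β x) < 1 := fun x => by
    have h1 := vt_lt (β.symm : Kb ≃+* Kb) V (β x)
    have h2 : (β.symm : Kb ≃+* Kb) (β x) = x := β.symm_apply_apply x
    rw [h2] at h1
    rw [hV₀]
    exact h1
  have hc : Trp D (fun x => β.symm (σ (β x))) ((S.comp φ).comp R) := trq_conj hR hS hφ
  have h1 := h V₀ (fun x => by
      rw [hle]
      have h2 : β ((ι : F →+* Kb) x) = (ι' : F →+* Kb) x := hβ x
      rw [h2]
      exact hV x)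
    (((β : Kb ≃+* Kb).trans σ).trans (β.symm : Kb ≃+* Kb)) (fun x => by
      show β.symm (σ (β (ι x))) = ι x
      have h2 : σ (ι' x) = ι' x := hσ x
      rw [hβ, h2, hβ'])
    (fun x hx => by
      rw [hlt]
      have h2 : β ((((β : Kb ≃+* Kb).trans σ).trans (β.symm : Kb ≃+* Kb)) x) = σ (β x) :=
        β.apply_symm_apply _
      rw [map_sub, map_pow, h2]
      exact hF _ ((hle x).1 hx))
    ((S.comp φ).comp R) hc (S T) (by
      obtain ⟨a, ha, h0⟩ := hT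
      refine ⟨a, ?_, ?_⟩
      · have h2 : β (algebraMap K Kb (a : K)) = algebraMap K Kb (a : K) := β.commutes _
        refine le_antisymm ((hle _).2 (by rw [h2, ha])) (not_lt.1 fun h3 => ?_)
        have h4 := (hlt _).1 h3
        rw [h2, ha] at h4
        exact lt_irrefl _ h4
      · rw [← hSl, h0, map_zero])
  have h2 : S (φ (R (S T))) = sm Kb ψ (S T) := h1
  rw [hRS] at h2
  have h3 := congrArg (fun X => R X) h2
  change R (S (φ T)) = R (sm Kb ψ (S T)) at h3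
  rw [hRS, hRl, hRS] at h3
  exact h3

end Pool.Agent.Lib.MP_1a91b9_nuX.PH
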